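import Pool.Agent.helper43.DPMain

set_option autoImplicit false

/-!
# Gröbner-coherence of the one-variable divided power algebra

For every commutative ring `k`: if the divided power algebra `D_k` in one variable is
graded-coherent and `(k ⊗ ℚ)[x]` is Gröbner-coherent, then `D_k` is Gröbner-coherent.
-/

namespace Pool.Agent.Results.MP_5b8a1a_al.GroebnerCoherence

open Pool.Agent.H43.Grob

universe u

theorem result (k : Type u) [CommRing k]
    (hD : GradedCoherent (DP.gr k))
    (hQ : GroebnerCoherent (polyGr (TensorProduct ℤ k ℚ))) :
    GroebnerCoherent (DP.gr k) :=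
  DP.main (isRatl_tensor k) hD hQ

end Pool.Agent.Results.MP_5b8a1a_al.GroebnerCoherence
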